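import Pool.Agent.Helper19.PM.Goals

/-!
# Project T3 (MP_a41896_nt), part P1M, packet DIVW: division in one variable
-/

set_option autoImplicit false

namespace Pool.Agent.Helper36.PM

open Polynomial Pool.Agent.Helper29.BL

section bounds

variable {K : Type} [Field K]

lemma cst_nn (v : AbsoluteValue K ℝ) (m : ℕ) : 0 ≤ cst v (m : ℝ) := by
  unfold cst; split_ifs <;> positivity

lemma v_nat (v : AbsoluteValue K ℝ) (k : ℕ) : v (k : K) ≤ cst v (k : ℝ) := by
  by_cases h : IsNonarchimedean v
  · rw [cst_of_nonarch h]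
    induction k with
    | zero => simp
    | succ k ih =>
      rw [Nat.cast_succ]
      refine (h _ _).trans (max_le ih ?_)
      simp
  · rw [cst_of_not_nonarch h]
    induction k with
    | zero => simp
    | succ k ih =>
      rw [Nat.cast_succ, Nat.cast_succ]
      refine (v.add_le _ _).trans ?_
      rw [map_one]
      linarith

/-- `x` has weight `n` and size `m` -/
structure QQ (g : K[X]) (u : K) (n m : ℕ) (x : K) : Prop where
  bd : ∀ (v : AbsoluteValue K ℝ) (G : ℝ), 1 ≤ G → (∀ k, v (g.coeff k) ≤ G) → v u ≤ G →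
    v x ≤ cst v (m : ℝ) * G ^ n
  int : ∀ d : ℕ, (∀ k, IsIntegral ℤ ((d : K) * g.coeff k)) → IsIntegral ℤ ((d : K) * u) →
    IsIntegral ℤ ((d : K) ^ n * x)

variable {g : K[X]} {u : K}

lemma isIntegral_nat (d : ℕ) : IsIntegral ℤ (d : K) := by
  have := isIntegral_algebraMap (R := ℤ) (A := K) (x := (d : ℤ))
  simpa using this

lemma QQ.zero (n m : ℕ) : QQ g u n m 0 where
  bd v G hG _ _ := by
    rw [map_zero]
    exact mul_nonneg (cst_nn v m) (by positivity)
  int d _ _ := by
    rw [mul_zero]
    exact isIntegral_zero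

lemma QQ.nat (k : ℕ) : QQ g u 0 k (k : K) where
  bd v G _ _ _ := by
    rw [pow_zero, mul_one]
    exact v_nat v k
  int d _ _ := by
    rw [pow_zero, one_mul]
    exact isIntegral_nat k

lemma QQ.mono {n n' m m' : ℕ} {x : K} (h : QQ g u n m x) (hn : n ≤ n') (hm : m ≤ m') :
    QQ g u n' m' x where
  bd v G hG h1 h2 := by
    refine (h.bd v G hG h1 h2).trans ?_
    refine mul_le_mul (cst_mono v (by exact_mod_cast hm)) (pow_le_pow_right₀ hG hn)
      (by positivity) (cst_nn v m')
  int d h1 h2 := by
    have h3 := h.int d h1 h2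
    obtain ⟨k, rfl⟩ := Nat.exists_eq_add_of_le hn
    rw [pow_add, mul_comm ((d : K) ^ n), mul_assoc]
    exact ((isIntegral_nat d).pow k).mul h3

lemma QQ.mul {n n' m m' : ℕ} {x y : K} (h : QQ g u n m x) (h' : QQ g u n' m' y) :
    QQ g u (n + n') (m * m') (x * y) where
  bd v G hG h1 h2 := by
    rw [map_mul, Nat.cast_mul, cst_mul, pow_add]
    have a1 := h.bd v G hG h1 h2
    have a2 := h'.bd v G hG h1 h2
    calc v x * v y ≤ (cst v m * G ^ n) * (cst v m' * G ^ n') :=
          mul_le_mul a1 a2 (v.nonneg _) (mul_nonneg (cst_nn v m) (by positivity))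
      _ = cst v m * cst v m' * (G ^ n * G ^ n') := by ring
  int d h1 h2 := by
    have := (h.int d h1 h2).mul (h'.int d h1 h2)
    have e : (d : K) ^ (n + n') * (x * y) = (d : K) ^ n * x * ((d : K) ^ n' * y) := by
      rw [pow_add]; ring
    rw [e]
    exact this

lemma QQ.add {n m m' : ℕ} {x y : K} (h : QQ g u n m x) (h' : QQ g u n m' y) :
    QQ g u n (m + m') (x + y) where
  bd v G hG h1 h2 := by
    have a1 := h.bd v G hG h1 h2
    have a2 := h'.bd v G hG h1 h2
    by_cases hv : IsNonarchimedean v
    · rw [cst_of_nonarch hv] at a1 a2 ⊢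
      exact (hv _ _).trans (max_le a1 a2)
    · rw [cst_of_not_nonarch hv] at a1 a2 ⊢
      refine (v.add_le _ _).trans ?_
      push_cast
      linarith
  int d h1 h2 := by
    rw [mul_add]
    exact (h.int d h1 h2).add (h'.int d h1 h2)

lemma QQ.neg {n m : ℕ} {x : K} (h : QQ g u n m x) : QQ g u n m (-x) where
  bd v G hG h1 h2 := by
    rw [AbsoluteValue.map_neg]
    exact h.bd v G hG h1 h2
  int d h1 h2 := by
    rw [mul_neg]
    exact (h.int d h1 h2).neg

lemma QQ.sum {ι : Type} (s : Finset ι) (n : ℕ) (m : ι → ℕ) (x : ι → K)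
    (h : ∀ i ∈ s, QQ g u n (m i) (x i)) : QQ g u n (∑ i ∈ s, m i) (∑ i ∈ s, x i) := by
  classical
  induction s using Finset.induction_on with
  | empty => simpa using QQ.zero n 0
  | insert i s hi ih =>
    rw [Finset.sum_insert hi, Finset.sum_insert hi]
    exact (h i (Finset.mem_insert_self i s)).add
      (ih fun j hj => h j (Finset.mem_insert_of_mem hj))

lemma QQ.coeff (k : ℕ) : QQ g u 1 1 (g.coeff k) where
  bd v G _ h1 _ := by
    have : cst v ((1 : ℕ) : ℝ) = 1 := by unfold cst; simp
    rw [this, pow_one, one_mul]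
    exact h1 k
  int d h1 _ := by
    rw [pow_one]
    exact h1 k

lemma QQ.inv : QQ g u 1 1 u where
  bd v G _ _ h2 := by
    have : cst v ((1 : ℕ) : ℝ) = 1 := by unfold cst; simp
    rw [this, pow_one, one_mul]
    exact h2
  int d _ h2 := by
    rw [pow_one]
    exact h2

lemma taylor_eq (D k : ℕ) (t : K) (hg : g.natDegree ≤ D) : (taylor t g).coeff k =
    ∑ l ∈ Finset.range (D + 1), ((l.choose k : ℕ) : K) * g.coeff l * t ^ (l - k) := by
  rw [taylor_coeff, hasseDeriv_apply, Polynomial.sum_over_range' _ _ (D + 1) (by omega)]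
  · rw [eval_finsetSum]
    apply Finset.sum_congr rfl
    intro l _
    rw [eval_monomial]
  · intro l
    simp

/-- the size of the Taylor coefficients -/
def AA (D : ℕ) : ℕ := (D + 1) * (2 ^ D * (D + 1) ^ D)

lemma QQ_taylor (D k t : ℕ) (hg : g.natDegree ≤ D) (ht : t ≤ D) :
    QQ g u 1 (AA D) ((taylor (t : K) g).coeff k) := by
  rw [taylor_eq D k _ hg]
  have h1 : ∀ l ∈ Finset.range (D + 1), QQ g u 1 (2 ^ D * (D + 1) ^ D)
      (((l.choose k : ℕ) : K) * g.coeff l * (t : K) ^ (l - k)) := by
    intro l hl
    have hl' : l ≤ D := Nat.lt_succ_iff.1 (Finset.mem_range.1 hl)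
    have a1 : QQ g u (0 + 1 + 0) (l.choose k * 1 * t ^ (l - k))
        (((l.choose k : ℕ) : K) * g.coeff l * ((t ^ (l - k) : ℕ) : K)) :=
      ((QQ.nat _).mul (QQ.coeff l)).mul (QQ.nat _)
    rw [Nat.cast_pow] at a1
    refine a1.mono (by norm_num) ?_
    rw [mul_one]
    refine Nat.mul_le_mul ?_ ?_
    · exact (Nat.choose_le_two_pow l k).trans (Nat.pow_le_pow_right (by norm_num) hl')
    · calc t ^ (l - k) ≤ (D + 1) ^ (l - k) := Nat.pow_le_pow_left (by omega) _
        _ ≤ (D + 1) ^ D := Nat.pow_le_pow_right (by omega) (by omega)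
  have h2 := QQ.sum _ 1 _ _ h1
  refine h2.mono le_rfl ?_
  simp [AA]

/-- the recursion -/
lemma main (D : ℕ) (hD : 1 ≤ D) (t : ℕ) (hg : g.natDegree ≤ D) (ht : t ≤ D)
    (hu : u * g.eval (t : K) = 1) : ∀ z m : ℕ, z ≤ m → ∃ ρ : ℕ → ℕ → K,
      (∀ a b, QQ g u (2 * z) ((1 + D * AA D) ^ z) (ρ a b)) ∧
      ∀ M, m + 1 ≤ M → (X - C (t : K)) ^ (m - z) =
        ∑ a ∈ Finset.range M, ∑ b ∈ Finset.range D, if a * D + b ≤ m then
          C (ρ a b) * (g ^ a * (X - C (t : K)) ^ (m - (a * D + b))) else 0 := by
  intro z
  induction z using Nat.strong_induction_on with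
  | _ z ih =>
    intro m hzm
    by_cases hz : z < D
    · refine ⟨fun a b => if a = 0 ∧ b = z then 1 else 0, ?_, ?_⟩
      · intro a b
        dsimp only
        split_ifs
        · have h1 : QQ g u 0 1 ((1 : ℕ) : K) := QQ.nat 1
          rw [Nat.cast_one] at h1
          exact h1.mono (Nat.zero_le _) (Nat.one_le_pow _ _ (by omega))
        · exact QQ.zero _ _
      · intro M hM
        rw [Finset.sum_eq_single 0, Finset.sum_eq_single z]
        · rw [if_pos (show 0 * D + z ≤ m by omega)]
          simp
        · intro b _ hb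
          simp [hb]
        · intro h
          exact absurd (Finset.mem_range.2 hz) h
        · intro a _ ha
          apply Finset.sum_eq_zero
          intro b _
          simp [ha]
        · intro h
          exact absurd (Finset.mem_range.2 (by omega)) h
    · push Not at hz
      obtain ⟨ρ0, hρ0, hρ0'⟩ := ih (z - D) (by omega) (m - D) (by omega)
      have hk : ∀ k : ℕ, ∃ ρ : ℕ → ℕ → K, k ∈ Finset.Icc 1 D →
          (∀ a b, QQ g u (2 * (z - k)) ((1 + D * AA D) ^ (z - k)) (ρ a b)) ∧
          ∀ M, m + 1 ≤ M → (X - C (t : K)) ^ (m - (z - k)) =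
            ∑ a ∈ Finset.range M, ∑ b ∈ Finset.range D, if a * D + b ≤ m then
              C (ρ a b) * (g ^ a * (X - C (t : K)) ^ (m - (a * D + b))) else 0 := by
        intro k
        by_cases hk : k ∈ Finset.Icc 1 D
        · rw [Finset.mem_Icc] at hk
          obtain ⟨ρ, h1, h2⟩ := ih (z - k) (by omega) m (by omega)
          exact ⟨ρ, fun _ => ⟨h1, h2⟩⟩
        · exact ⟨fun _ _ => 0, fun h => absurd h hk⟩
      choose ρ hρ using hk
      refine ⟨fun a b => u * ((if a = 0 then 0 else ρ0 (a - 1) b) +
        ∑ k ∈ Finset.Icc 1 D, - ((taylor (t : K) g).coeff k * ρ k a b)), ?_, ?_⟩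
      · intro a b
        have hB : 1 ≤ 1 + D * AA D := by omega
        have a1 : QQ g u (2 * z - 1) ((1 + D * AA D) ^ (z - 1))
            (if a = 0 then 0 else ρ0 (a - 1) b) := by
          split_ifs
          · exact QQ.zero _ _
          · exact (hρ0 (a - 1) b).mono (by omega) (Nat.pow_le_pow_right hB (by omega))
        have a2 : ∀ k ∈ Finset.Icc 1 D, QQ g u (2 * z - 1) (AA D * (1 + D * AA D) ^ (z - 1))
            (- ((taylor (t : K) g).coeff k * ρ k a b)) := by
          intro k hk
          have h3 := (hρ k hk).1 a b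
          rw [Finset.mem_Icc] at hk
          refine (((QQ_taylor D k t hg ht).mul h3).neg).mono (by omega) ?_
          exact Nat.mul_le_mul_left _ (Nat.pow_le_pow_right hB (by omega))
        have a3 := a1.add (QQ.sum _ _ _ _ a2)
        have a4 := QQ.inv.mul a3
        refine a4.mono (by omega) ?_
        rw [Finset.sum_const, Nat.card_Icc, smul_eq_mul, one_mul]
        have e : (1 + D * AA D) ^ z = (1 + D * AA D) ^ (z - 1) * (1 + D * AA D) := by
          rw [← pow_succ]; congr 1; omega
        rw [e]
        apply le_of_eq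
        rw [Nat.add_sub_cancel]
        ring
      · intro M hM
        obtain ⟨M', rfl⟩ : ∃ M', M = M' + 1 := ⟨M - 1, by omega⟩
        -- the expansion of `g`
        have hgt : g = C (g.eval (t : K)) + ∑ k ∈ Finset.Icc 1 D,
            C ((taylor (t : K) g).coeff k) * (X - C (t : K)) ^ k := by
          have h1 := sum_taylor_eq g (t : K)
          rw [Polynomial.sum_over_range' _ _ (D + 1) (by rw [natDegree_taylor]; omega)] at h1
          · rw [Finset.sum_range_succ', pow_zero, mul_one, taylor_coeff_zero] at h1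
            rw [add_comm, ← Finset.sum_bij (fun (i : ℕ) (_ : i ∈ Finset.range D) => i + 1) _ _ _ _]
            · exact h1.symm
            · intro i hi
              rw [Finset.mem_range] at hi
              rw [Finset.mem_Icc]; omega
            · intro i _ j _ hij
              omega
            · intro k hk
              rw [Finset.mem_Icc] at hk
              exact ⟨k - 1, Finset.mem_range.2 (by omega), by omega⟩
            · intro i _
              rfl
          · intro i
            simp
        have key : (X - C (t : K)) ^ (m - z) = C u * (g * (X - C (t : K)) ^ ((m - D) - (z - D)) -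
            ∑ k ∈ Finset.Icc 1 D, C ((taylor (t : K) g).coeff k) *
              (X - C (t : K)) ^ (m - (z - k))) := by
          have e1 : (m - D) - (z - D) = m - z := by omega
          have e2 : ∑ k ∈ Finset.Icc 1 D, C ((taylor (t : K) g).coeff k) *
              (X - C (t : K)) ^ (m - (z - k)) =
              (∑ k ∈ Finset.Icc 1 D, C ((taylor (t : K) g).coeff k) *
                (X - C (t : K)) ^ k) * (X - C (t : K)) ^ (m - z) := by
            rw [Finset.sum_mul]
            apply Finset.sum_congr rfl
            intro k hk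
            rw [Finset.mem_Icc] at hk
            rw [mul_assoc, ← pow_add]
            congr 2
            omega
          rw [e1, e2, ← sub_mul]
          have e3 : g - ∑ k ∈ Finset.Icc 1 D, C ((taylor (t : K) g).coeff k) *
                (X - C (t : K)) ^ k = C (g.eval (t : K)) := by
            nth_rewrite 1 [hgt]
            ring
          rw [e3, ← mul_assoc, ← C_mul, hu, C_1, one_mul]
        have s1 : g * (X - C (t : K)) ^ ((m - D) - (z - D)) =
            ∑ a ∈ Finset.range (M' + 1), ∑ b ∈ Finset.range D, if a * D + b ≤ m then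
              C (if a = 0 then 0 else ρ0 (a - 1) b) *
                (g ^ a * (X - C (t : K)) ^ (m - (a * D + b))) else 0 := by
          rw [Finset.sum_range_succ', hρ0' M' (by omega), Finset.mul_sum]
          have z0 : (∑ b ∈ Finset.range D, if 0 * D + b ≤ m then
              C (if (0 : ℕ) = 0 then (0 : K) else ρ0 (0 - 1) b) *
                (g ^ 0 * (X - C (t : K)) ^ (m - (0 * D + b))) else 0) = 0 := by
            apply Finset.sum_eq_zero
            intro b _
            simp
          rw [z0, add_zero]
          apply Finset.sum_congr rfl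
          intro a _
          rw [Finset.mul_sum]
          apply Finset.sum_congr rfl
          intro b _
          have e4 : (a + 1) * D + b ≤ m ↔ a * D + b ≤ m - D := by
            rw [add_mul, one_mul]; omega
          by_cases hc : a * D + b ≤ m - D
          · rw [if_pos hc, if_pos (e4.2 hc), if_neg (Nat.succ_ne_zero a), Nat.add_sub_cancel]
            have e5 : m - D - (a * D + b) = m - ((a + 1) * D + b) := by
              rw [add_mul, one_mul]; omega
            rw [e5, pow_succ]
            ring
          · rw [if_neg hc, if_neg (fun h => hc (e4.1 h)), mul_zero]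
        have s2 : ∑ k ∈ Finset.Icc 1 D, C ((taylor (t : K) g).coeff k) *
            (X - C (t : K)) ^ (m - (z - k)) =
            ∑ a ∈ Finset.range (M' + 1), ∑ b ∈ Finset.range D, if a * D + b ≤ m then
              C (∑ k ∈ Finset.Icc 1 D, (taylor (t : K) g).coeff k * ρ k a b) *
                (g ^ a * (X - C (t : K)) ^ (m - (a * D + b))) else 0 := by
          have e6 : ∀ k ∈ Finset.Icc 1 D, C ((taylor (t : K) g).coeff k) *
              (X - C (t : K)) ^ (m - (z - k)) =
              ∑ a ∈ Finset.range (M' + 1), ∑ b ∈ Finset.range D, if a * D + b ≤ m then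
                C ((taylor (t : K) g).coeff k * ρ k a b) *
                  (g ^ a * (X - C (t : K)) ^ (m - (a * D + b))) else 0 := by
            intro k hk
            rw [(hρ k hk).2 (M' + 1) hM, Finset.mul_sum]
            apply Finset.sum_congr rfl
            intro a _
            rw [Finset.mul_sum]
            apply Finset.sum_congr rfl
            intro b _
            split_ifs
            · rw [C_mul, mul_assoc]
            · rw [mul_zero]
          rw [Finset.sum_congr rfl e6, Finset.sum_comm]
          apply Finset.sum_congr rfl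
          intro a _
          rw [Finset.sum_comm]
          apply Finset.sum_congr rfl
          intro b _
          split_ifs
          · rw [map_sum, Finset.sum_mul]
          · rw [Finset.sum_const_zero]
        rw [key, s1, s2, ← Finset.sum_sub_distrib, Finset.mul_sum]
        apply Finset.sum_congr rfl
        intro a _
        rw [← Finset.sum_sub_distrib, Finset.mul_sum]
        apply Finset.sum_congr rfl
        intro b _
        dsimp only
        by_cases hc : a * D + b ≤ m
        · rw [if_pos hc, if_pos hc, if_pos hc, ← sub_mul, ← C_sub, ← mul_assoc, ← C_mul]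
          congr 2
          rw [Finset.sum_neg_distrib, ← sub_eq_add_neg]
        · rw [if_neg hc, if_neg hc, if_neg hc, sub_zero, mul_zero]

end bounds

theorem t_DIVW : Pool.Agent.Helper19.PM.DIVW := by
  intro D hD
  refine ⟨(D + 1) * (1 + D * AA D), Nat.one_le_iff_ne_zero.2 (by positivity), ?_⟩
  intro K _ _ g t N hg ht hgt
  obtain ⟨u, hu⟩ : ∃ u, u = (g.eval (t : K))⁻¹ := ⟨_, rfl⟩
  have hu1 : u * g.eval (t : K) = 1 := by rw [hu]; exact inv_mul_cancel₀ hgt
  have hk : ∀ j : ℕ, ∃ ρ : ℕ → ℕ → K, j ≤ N →
      (∀ a b, QQ g u (2 * (N - j)) ((1 + D * AA D) ^ (N - j)) (ρ a b)) ∧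
      (X - C (t : K)) ^ j =
        ∑ a ∈ Finset.range (N + 1), ∑ b ∈ Finset.range D, if a * D + b ≤ N then
          C (ρ a b) * (g ^ a * (X - C (t : K)) ^ (N - (a * D + b))) else 0 := by
    intro j
    by_cases hj : j ≤ N
    · obtain ⟨ρ, h1, h2⟩ := main D hD t hg ht hu1 (N - j) N (by omega)
      refine ⟨ρ, fun _ => ⟨h1, ?_⟩⟩
      have h3 := h2 (N + 1) le_rfl
      rw [show N - (N - j) = j by omega] at h3
      exact h3
    · exact ⟨fun _ _ => 0, fun h => absurd h hj⟩
  choose ρ hρ using hk
  have hQ : ∀ s a b : ℕ, QQ g u (2 * N) (((D + 1) * (1 + D * AA D)) ^ N)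
      (if s ≤ N then ∑ j ∈ Finset.range (s + 1), ((s.choose j * t ^ (s - j) : ℕ) : K) * ρ j a b
        else 0) := by
    intro s a b
    split_ifs with hs
    · have h1 : ∀ j ∈ Finset.range (s + 1), QQ g u (2 * N)
          (s.choose j * t ^ (s - j) * (1 + D * AA D) ^ N)
          (((s.choose j * t ^ (s - j) : ℕ) : K) * ρ j a b) := by
        intro j hj
        rw [Finset.mem_range] at hj
        refine ((QQ.nat _).mul ((hρ j (by omega)).1 a b)).mono (by omega) ?_
        exact Nat.mul_le_mul_left _ (Nat.pow_le_pow_right (by omega) (by omega))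
      refine (QQ.sum _ _ _ _ h1).mono le_rfl ?_
      rw [← Finset.sum_mul, mul_pow]
      apply Nat.mul_le_mul_right
      have h2 := add_pow 1 t s
      have h3 : ∑ j ∈ Finset.range (s + 1), s.choose j * t ^ (s - j) = (1 + t) ^ s := by
        rw [h2]
        apply Finset.sum_congr rfl
        intro j _
        simp [mul_comm]
      rw [h3]
      calc (1 + t) ^ s ≤ (D + 1) ^ s := Nat.pow_le_pow_left (by omega) _
        _ ≤ (D + 1) ^ N := Nat.pow_le_pow_right (by omega) hs
    · exact QQ.zero _ _
  refine ⟨fun s a b => if s ≤ N then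
    ∑ j ∈ Finset.range (s + 1), ((s.choose j * t ^ (s - j) : ℕ) : K) * ρ j a b else 0,
    ?_, ?_, ?_⟩
  · intro s hs
    have h1 : (X : K[X]) ^ s = ∑ j ∈ Finset.range (s + 1),
        C ((s.choose j * t ^ (s - j) : ℕ) : K) * (X - C (t : K)) ^ j := by
      have h2 := add_pow (X - C (t : K)) (C (t : K)) s
      rw [sub_add_cancel] at h2
      rw [h2]
      apply Finset.sum_congr rfl
      intro j _
      simp only [Nat.cast_mul, Nat.cast_pow, C_mul, C_pow, map_natCast]
      ring
    have e6 : ∀ j ∈ Finset.range (s + 1),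
        C ((s.choose j * t ^ (s - j) : ℕ) : K) * (X - C (t : K)) ^ j =
        ∑ a ∈ Finset.range (N + 1), ∑ b ∈ Finset.range D, if a * D + b ≤ N then
          C (((s.choose j * t ^ (s - j) : ℕ) : K) * ρ j a b) *
            (g ^ a * (X - C (t : K)) ^ (N - (a * D + b))) else 0 := by
      intro j hj
      rw [Finset.mem_range] at hj
      rw [(hρ j (by omega)).2, Finset.mul_sum]
      apply Finset.sum_congr rfl
      intro a _
      rw [Finset.mul_sum]
      apply Finset.sum_congr rfl
      intro b _
      split_ifs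
      · rw [C_mul, mul_assoc]
      · rw [mul_zero]
    rw [h1, Finset.sum_congr rfl e6, Finset.sum_comm]
    apply Finset.sum_congr rfl
    intro a _
    rw [Finset.sum_comm]
    apply Finset.sum_congr rfl
    intro b _
    dsimp only
    split_ifs
    · rw [map_sum, Finset.sum_mul]
    · rw [Finset.sum_const_zero]
  · intro v G s a b hG h1 h2
    have h3 := (hQ s a b).bd v G hG h1 (by rw [hu]; exact h2)
    refine h3.trans ?_
    have hc : 1 ≤ cst v (((D + 1) * (1 + D * AA D) : ℕ) : ℝ) := by
      apply one_le_cst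
      exact_mod_cast Nat.one_le_iff_ne_zero.2 (by positivity)
    have h4 : 1 ≤ cst v (((D + 1) * (1 + D * AA D) : ℕ) : ℝ) * G ^ 2 :=
      one_le_mul_of_one_le_of_one_le hc (one_le_pow₀ hG)
    calc cst v ((((D + 1) * (1 + D * AA D)) ^ N : ℕ) : ℝ) * G ^ (2 * N)
        = (cst v (((D + 1) * (1 + D * AA D) : ℕ) : ℝ) * G ^ 2) ^ N := by
          rw [Nat.cast_pow, cst_pow, mul_pow, ← pow_mul]
      _ ≤ _ := pow_le_pow_right₀ h4 (Nat.le_succ N)
  · intro d s a b h1 h2
    exact ((hQ s a b).mono (show 2 * N ≤ 2 * (N + 1) by omega) le_rfl).int d h1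
      (by rw [hu]; exact h2)

end Pool.Agent.Helper36.PM
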